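import Pool.Agent.H1.GZ.CNQ
import Pool.Agent.H1.GZ.JSH
import Pool.Agent.H1.GZ.THW
import Pool.Agent.H1.GZ.WSM
import Pool.Agent.H11.GZ.HLD
import Pool.Agent.H11.GZ.MKZ
import Pool.Agent.H11.GZ.SC1
import Pool.Agent.H13.GZ.LPB
import Pool.Agent.H13.GZ.SMZ
import Pool.Agent.H14.GZ.EXT
import Pool.Agent.H14.GZ.RED
import Pool.Agent.H14.GZ.SPZ
import Pool.Agent.H14.GZ.TLB
import Pool.Agent.H16.GZ.AP1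
import Pool.Agent.H16.GZ.TDS
import Pool.Agent.H17.GZ.GAU
import Pool.Agent.H17.GZ.RPS
import Pool.Agent.H18.GZ.APB
import Pool.Agent.H19.GZ.CKZ
import Pool.Agent.H19.GZ.CLO
import Pool.Agent.H19.GZ.CUB
import Pool.Agent.H20.GZ.VOL
import Pool.Agent.H21.GZ.ZEK
import Pool.Agent.H25.GZ.BEU
import Pool.Agent.H25.GZ.VEZ
import Pool.Agent.H27.GZ.FTE
import Pool.Agent.H30.GZ.COL
import Pool.Agent.H30.GZ.SCP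
import Pool.Agent.H31.GZ.SHI
import Pool.Agent.H32.GZ.ABL
import Pool.Agent.H32.GZ.CMA
import Pool.Agent.H34.GM.CONv
import Pool.Agent.H34.GM.FTD
import Pool.Agent.H34.GM.HAC
import Pool.Agent.H34.GM.MEL
import Pool.Agent.H34.GM.MSR
import Pool.Agent.H34.GM.PLC
import Pool.Agent.H34.GM.PWC
import Pool.Agent.H34.GM.PWN
import Pool.Agent.H34.GM.TH1
import Pool.Agent.H34.GM.THC
import Pool.Agent.H34.GM.ZLB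
import Pool.Agent.H34.GM.ZMT
import Pool.Agent.H36.GZ.ABS
import Pool.Agent.H36.GZ.CUT
import Pool.Agent.H36.GZ.FCZ
import Pool.Agent.H36.GZ.GSU
import Pool.Agent.H37.GZ.BE2
import Pool.Agent.H37.GZ.TAY
import Pool.Agent.H38.GM.PLR
import Pool.Agent.H38.GZ.D4Z
import Pool.Agent.H38.GZ.OCZ
import Pool.Agent.H4.GZ.CFB
import Pool.Agent.H4.GZ.FLG
import Pool.Agent.H4.GZ.TNZ
import Pool.Agent.H43.GZ.EIZ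
import Pool.Agent.H43.GZ.EXD
import Pool.Agent.H43.GZ.POZ
import Pool.Agent.H44.GMF.HAR
import Pool.Agent.H45.GZ.PKB
import Pool.Agent.H46.GZ.MSS
import Pool.Agent.H47.GZ.OST
import Pool.Agent.H47.GZ.SCJ
import Pool.Agent.H48.GZ.EXB
import Pool.Agent.H49.GZ.ENZ
import Pool.Agent.H49.GZ.FTG
import Pool.Agent.H5.GZ.SHP
import Pool.Agent.H50.GZ.EGD
import Pool.Agent.H50.GZ.TCM
import Pool.Agent.H51.GZ.EIN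
import Pool.Agent.H54.GZ.GA1
import Pool.Agent.H54.GZ.PWF
import Pool.Agent.H55.GZ.EZ1
import Pool.Agent.H55.GZ.SHZ
import Pool.Agent.H55.GZ.THB
import Pool.Agent.H57.GZ.EKD
import Pool.Agent.H57.GZ.VLA
import Pool.Agent.H61.GZ.HSZ
import Pool.Agent.H62.GZ.CHN
import Pool.Agent.H62.GZ.EGX
import Pool.Agent.H63.GZ.CVZ
import Pool.Agent.H63.GZ.GLZ
import Pool.Agent.H64.GZ.ALZ
import Pool.Agent.H67.GZ.IDX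
import Pool.Agent.H67.GZ.STA
import Pool.Agent.H68.GZ.DYM
import Pool.Agent.H68.GZ.SEX
import Pool.Agent.H69.GZ.CL1
import Pool.Agent.H69.GZ.MUL
import Pool.Agent.H69.GZ.SPF
import Pool.Agent.H72.GZ.EGY
import Pool.Agent.H72.GZ.VO2
import Pool.Agent.H73.GZ.INQ
import Pool.Agent.H75.GZ.DYS
import Pool.Agent.H77.GZ.ADJ
import Pool.Agent.H77.GZ.STR
import Pool.Agent.H78.GZ.SHB
import Pool.Agent.H78.GZ.TCK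
import Pool.Agent.H8.GZ.ADP
import Pool.Agent.H8.GZ.DIL
import Pool.Agent.H8.GZ.H1Z
import Pool.Agent.H81.GZ.LMZ
import Pool.Agent.H84.GZ.EUL
import Pool.Agent.H85.GZ.UNZ
import Pool.Agent.H86.GMF.BMP
import Pool.Agent.H86.GZ.DAV
import Pool.Agent.H86.GZ.GSM
import Pool.Agent.H86.GZ.PSZ
import Pool.Agent.H86.GZ.RTI
import Pool.Agent.H88.GZ.ADF
import Pool.Agent.H89.GZ.THE
import Pool.Agent.H89.GZ.TNL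
import Pool.Agent.H90.GZ.UNL
import Pool.Agent.H90.GZ.VLM
import Pool.Agent.H91.GZ.ADB
import Pool.Agent.H91.GZ.H2Z
import Pool.Agent.H92.GZ.AP2
import Pool.Agent.H94.GZ.VCT
import Pool.Agent.H95.GZ.CNT

/-!
All rows of the board gz: the fourth moment over the cusp forms of GL_m(Z)
(MP_52e316_nt).
-/

namespace Pool.Agent.H34.GZ

theorem g_HAR : Pool.Agent.H34.GM.T_HAR := Pool.Agent.H44.GMF.pf_HAR 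
theorem g_MSR : Pool.Agent.H34.GM.T_MSR := Pool.Agent.H34.GM.pf_MSR 
theorem g_PLR : Pool.Agent.H34.GM.T_PLR := Pool.Agent.H34.GM.pf_PLR g_MSR g_HAR
theorem g_PWC : Pool.Agent.H34.GM.T_PWC := Pool.Agent.H34.GM.pf_PWC 
theorem g_TH1 : Pool.Agent.H34.GM.T_TH1 := Pool.Agent.H34.GM.pf_TH1 g_MSR g_HAR g_PWC
theorem g_HAC : Pool.Agent.H34.GM.T_HAC := Pool.Agent.H34.GM.pf_HAC g_HAR
theorem g_PLC : Pool.Agent.H34.GM.T_PLC := Pool.Agent.H34.GM.pf_PLC g_MSR g_HAR g_PLR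
theorem g_BMP : Pool.Agent.H34.GM.T_BMP := Pool.Agent.H86.GMF.pf_BMP 
theorem g_PWN : Pool.Agent.H34.GM.T_PWN := Pool.Agent.H34.GM.pf_PWN 
theorem g_ZLB : Pool.Agent.H34.GM.T_ZLB := Pool.Agent.H34.GM.pf_ZLB g_HAR g_PWN g_BMP
theorem g_FTD : Pool.Agent.H34.GM.T_FTD := Pool.Agent.H34.GM.pf_FTD 
theorem g_ZMT : Pool.Agent.H34.GM.T_ZMT := Pool.Agent.H34.GM.pf_ZMT g_MSR g_HAR g_PLC g_PWC g_TH1
theorem g_THC : Pool.Agent.H34.GM.T_THC := Pool.Agent.H34.GM.pf_THC g_TH1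
theorem g_CON : Pool.Agent.H34.GM.T_CON := Pool.Agent.H34.GM.pf_CON 
theorem g_MEL : Pool.Agent.H34.GM.T_MEL := Pool.Agent.H34.GM.pf_MEL g_TH1 g_ZMT

theorem a_ABS  : T_ABS := Pool.Agent.H36.GZ.pf_ABS 
theorem a_ABL  : T_ABL := Pool.Agent.H32.GZ.pf_ABL a_ABS
theorem a_ADB  : T_ADB := Pool.Agent.H91.GZ.pf_ADB 
theorem a_SHI  : T_SHI := Pool.Agent.H31.GZ.pf_SHI g_HAR g_PLR
theorem a_JSH  : T_JSH := Pool.Agent.H1.GZ.pf_JSH g_MSR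
theorem a_UNZ  : T_UNZ := Pool.Agent.H85.GZ.pf_UNZ g_HAR
theorem a_ALZ  : T_ALZ := Pool.Agent.H64.GZ.pf_ALZ 
theorem a_IDX  : T_IDX := Pool.Agent.H67.GZ.pf_IDX 
theorem a_TNZ  : T_TNZ := Pool.Agent.H4.GZ.pf_TNZ a_IDX
theorem a_EXT  : T_EXT := Pool.Agent.H14.GZ.pf_EXT 
theorem a_TNL  : T_TNL := Pool.Agent.H89.GZ.pf_TNL a_SHI a_JSH a_UNZ a_ALZ a_TNZ a_EXT g_MSR
theorem a_ADF  : T_ADF := Pool.Agent.H88.GZ.pf_ADF a_TNL a_ALZ g_MSR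
theorem a_EZ1  : T_EZ1 := Pool.Agent.H55.GZ.pf_EZ1 g_MSR g_HAR g_HAC g_PLC g_PWC
theorem a_EIZ  : T_EIZ := Pool.Agent.H43.GZ.pf_EIZ a_ALZ a_UNZ g_TH1 a_EZ1
theorem a_CUT  : T_CUT := Pool.Agent.H36.GZ.pf_CUT 
theorem a_THW  : T_THW := Pool.Agent.H1.GZ.pf_THW g_MSR g_HAR g_PWC
theorem a_LMZ  : T_LMZ := Pool.Agent.H81.GZ.pf_LMZ a_ALZ a_TNZ
theorem a_EGD  : T_EGD := Pool.Agent.H50.GZ.pf_EGD a_EIZ a_CUT a_TNL a_THW a_LMZ a_ALZ g_MSR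
theorem a_PSZ  : T_PSZ := Pool.Agent.H86.GZ.pf_PSZ 
theorem a_VCT  : T_VCT := Pool.Agent.H94.GZ.pf_VCT a_PSZ a_ALZ
theorem a_VEZ  : T_VEZ := Pool.Agent.H25.GZ.pf_VEZ a_VCT a_ALZ g_HAR
theorem a_POZ  : T_POZ := Pool.Agent.H43.GZ.pf_POZ a_ALZ a_PSZ
theorem a_ADP  : T_ADP := Pool.Agent.H8.GZ.pf_ADP a_POZ a_PSZ a_ALZ
theorem a_FTG  : T_FTG := Pool.Agent.H49.GZ.pf_FTG g_HAC
theorem a_RED  : T_RED := Pool.Agent.H14.GZ.pf_RED 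
theorem a_CNT  : T_CNT := Pool.Agent.H95.GZ.pf_CNT 
theorem a_GSU  : T_GSU := Pool.Agent.H36.GZ.pf_GSU a_CNT
theorem a_VO2  : T_VO2 := Pool.Agent.H72.GZ.pf_VO2 
theorem a_VOL  : T_VOL := Pool.Agent.H20.GZ.pf_VOL a_GSU a_VO2
theorem a_CVZ  : T_CVZ := Pool.Agent.H63.GZ.pf_CVZ g_HAR
theorem a_VLA  : T_VLA := Pool.Agent.H57.GZ.pf_VLA 
theorem a_VLM  : T_VLM := Pool.Agent.H90.GZ.pf_VLM a_RED a_GSU a_VOL a_CVZ a_VLA a_CNT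
theorem a_ADJ  : T_ADJ := Pool.Agent.H77.GZ.pf_ADJ a_EIZ a_EGD a_VEZ a_VCT a_ADP a_ADF a_FTG a_VLM g_MSR
theorem a_AP1  : T_AP1 := Pool.Agent.H16.GZ.pf_AP1 g_HAR
theorem a_GSM  : T_GSM := Pool.Agent.H86.GZ.pf_GSM 
theorem a_CFB  : T_CFB := Pool.Agent.H4.GZ.pf_CFB 
theorem a_CL1  : T_CL1 := Pool.Agent.H69.GZ.pf_CL1 
theorem a_COL  : T_COL := Pool.Agent.H30.GZ.pf_COL a_GSM a_CFB a_CL1
theorem a_AP2  : T_AP2 := Pool.Agent.H92.GZ.pf_AP2 a_GSM a_COL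
theorem a_PWF  : T_PWF := Pool.Agent.H54.GZ.pf_PWF a_GSM
theorem a_GA1  : T_GA1 := Pool.Agent.H54.GZ.pf_GA1 
theorem a_SCP  : T_SCP := Pool.Agent.H30.GZ.pf_SCP a_GSM
theorem a_GAU  : T_GAU := Pool.Agent.H17.GZ.pf_GAU a_GSM a_PWF a_CFB a_GA1 a_COL a_SCP
theorem a_APB  : T_APB := Pool.Agent.H18.GZ.pf_APB a_AP1 a_AP2 a_GAU
theorem a_BE2  : T_BE2 := Pool.Agent.H37.GZ.pf_BE2 
theorem a_BEU  : T_BEU := Pool.Agent.H25.GZ.pf_BEU g_BMP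
theorem a_FLG  : T_FLG := Pool.Agent.H4.GZ.pf_FLG 
theorem a_CHN  : T_CHN := Pool.Agent.H62.GZ.pf_CHN a_FLG
theorem a_CKZ  : T_CKZ := Pool.Agent.H19.GZ.pf_CKZ 
theorem a_CLO  : T_CLO := Pool.Agent.H19.GZ.pf_CLO a_ALZ
theorem a_CMA  : T_CMA := Pool.Agent.H32.GZ.pf_CMA a_CNT
theorem a_CNQ  : T_CNQ := Pool.Agent.H1.GZ.pf_CNQ a_CNT
theorem a_CUB  : T_CUB := Pool.Agent.H19.GZ.pf_CUB 
theorem a_MKZ  : T_MKZ := Pool.Agent.H11.GZ.pf_MKZ 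
theorem a_UNL  : T_UNL := Pool.Agent.H90.GZ.pf_UNL a_UNZ a_IDX
theorem a_SHB  : T_SHB := Pool.Agent.H78.GZ.pf_SHB g_HAR
theorem a_SEX  : T_SEX := Pool.Agent.H68.GZ.pf_SEX a_RED a_IDX
theorem a_FCZ  : T_FCZ := Pool.Agent.H36.GZ.pf_FCZ a_UNL a_SHB a_SEX a_TNZ a_ALZ
theorem a_OCZ  : T_OCZ := Pool.Agent.H38.GZ.pf_OCZ a_UNZ a_EZ1 a_ALZ
theorem a_HSZ  : T_HSZ := Pool.Agent.H61.GZ.pf_HSZ g_BMP a_BE2 a_CKZ a_MKZ a_FCZ a_OCZ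
theorem a_TLB  : T_TLB := Pool.Agent.H14.GZ.pf_TLB g_HAR g_PWC g_PWN g_BMP
theorem a_LPB  : T_LPB := Pool.Agent.H13.GZ.pf_LPB 
theorem a_OST  : T_OST := Pool.Agent.H47.GZ.pf_OST g_ZLB g_HAC g_HAR g_BMP a_CUB a_LPB
theorem a_RTI  : T_RTI := Pool.Agent.H86.GZ.pf_RTI g_HAR
theorem a_DYM  : T_DYM := Pool.Agent.H68.GZ.pf_DYM a_GSU
theorem a_MSS  : T_MSS := Pool.Agent.H46.GZ.pf_MSS g_HAR g_MSR a_OST a_RTI a_DYM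
theorem a_H1Z  : T_H1Z := Pool.Agent.H8.GZ.pf_H1Z a_UNL a_SHB a_SEX a_IDX
theorem a_H2Z  : T_H2Z := Pool.Agent.H91.GZ.pf_H2Z a_UNL a_SHB a_CLO a_CNQ a_CNT a_ALZ a_IDX
theorem a_EIN  : T_EIN := Pool.Agent.H51.GZ.pf_EIN a_ALZ
theorem a_STA  : T_STA := Pool.Agent.H67.GZ.pf_STA a_CNT
theorem a_STR  : T_STR := Pool.Agent.H77.GZ.pf_STR a_RED a_CNT a_IDX a_STA
theorem a_WSM  : T_WSM := Pool.Agent.H1.GZ.pf_WSM a_FLG a_CHN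
theorem a_DAV  : T_DAV := Pool.Agent.H86.GZ.pf_DAV a_CNT a_IDX a_STR a_ADB a_WSM
theorem a_INQ  : T_INQ := Pool.Agent.H73.GZ.pf_INQ 
theorem a_EGX  : T_EGX := Pool.Agent.H62.GZ.pf_EGX a_INQ
theorem a_MUL  : T_MUL := Pool.Agent.H69.GZ.pf_MUL a_IDX
theorem a_EGY  : T_EGY := Pool.Agent.H72.GZ.pf_EGY a_CNT a_CMA a_IDX a_DAV a_EGX a_MUL
theorem a_ENZ  : T_ENZ := Pool.Agent.H49.GZ.pf_ENZ a_H1Z a_H2Z a_EIN a_EGY a_VLM a_SEX a_DYM a_ALZ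
theorem a_D4Z  : T_D4Z := Pool.Agent.H38.GZ.pf_D4Z a_HSZ a_OCZ a_TLB a_MSS a_ENZ a_DYM g_BMP
theorem a_SC1  : T_SC1 := Pool.Agent.H11.GZ.pf_SC1 a_GSM a_SCP a_CFB
theorem a_SCJ  : T_SCJ := Pool.Agent.H47.GZ.pf_SCJ a_SC1 a_SCP
theorem a_DIL  : T_DIL := Pool.Agent.H8.GZ.pf_DIL a_SCP a_SCJ a_PWF g_HAC
theorem a_DYS  : T_DYS := Pool.Agent.H75.GZ.pf_DYS 
theorem a_EKD  : T_EKD := Pool.Agent.H57.GZ.pf_EKD 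
theorem a_EUL  : T_EUL := Pool.Agent.H84.GZ.pf_EUL 
theorem a_PKB  : T_PKB := Pool.Agent.H45.GZ.pf_PKB 
theorem a_EXB  : T_EXB := Pool.Agent.H48.GZ.pf_EXB a_PKB
theorem a_EXD  : T_EXD := Pool.Agent.H43.GZ.pf_EXD g_MSR
theorem a_FTE  : T_FTE := Pool.Agent.H27.GZ.pf_FTE g_FTD g_BMP a_BEU a_EUL
theorem a_GLZ  : T_GLZ := Pool.Agent.H63.GZ.pf_GLZ g_BMP g_ZLB g_ZMT g_THC g_CON g_MEL
theorem a_HLD  : T_HLD := Pool.Agent.H11.GZ.pf_HLD 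
theorem a_RPS  : T_RPS := Pool.Agent.H17.GZ.pf_RPS a_SCP
theorem a_SHP  : T_SHP := Pool.Agent.H5.GZ.pf_SHP g_PWC g_MSR g_HAR
theorem a_SHZ  : T_SHZ := Pool.Agent.H55.GZ.pf_SHZ a_GSM a_PWF a_SCP a_COL g_HAR g_MSR g_PWC
theorem a_SMZ  : T_SMZ := Pool.Agent.H13.GZ.pf_SMZ a_ADJ a_THW a_LMZ a_FTG g_THC
theorem a_SPZ  : T_SPZ := Pool.Agent.H14.GZ.pf_SPZ g_THC g_CON
theorem a_SPF  : T_SPF := Pool.Agent.H69.GZ.pf_SPF a_ABL a_DYS a_ADJ a_SMZ a_SPZ a_LMZ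
theorem a_TAY  : T_TAY := Pool.Agent.H37.GZ.pf_TAY a_EXB
theorem a_TCM  : T_TCM := Pool.Agent.H50.GZ.pf_TCM g_PWN g_PWC g_MSR
theorem a_TCK  : T_TCK := Pool.Agent.H78.GZ.pf_TCK a_TCM a_PKB
theorem a_TDS  : T_TDS := Pool.Agent.H16.GZ.pf_TDS a_SCP a_DIL a_SHP
theorem a_THB  : T_THB := Pool.Agent.H55.GZ.pf_THB a_SHZ a_TAY a_RPS a_TDS a_SCP
theorem a_THE  : T_THE := Pool.Agent.H89.GZ.pf_THE g_PWC a_SHP g_MSR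
theorem a_ZEK  : T_ZEK := Pool.Agent.H21.GZ.pf_ZEK g_HAR g_HAC g_PWC

end Pool.Agent.H34.GZ
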