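import Pool.Agent.H18.GZ.Targets3
import Pool.Agent.H16.GZ.Targets4

/-!
Row MOZ: the fourth moment over the cusp forms of `GL_m(Z)`.
-/

namespace Pool.Agent.H34.GZ

open MeasureTheory Pool.Agent.H34.GM

lemma moz_det {m : ℕ} (hm1 : 1 ≤ m) {z : V m} (h : 1 ≤ aN (mt z)) : (mt z).det ≠ 0 := by
  intro h0
  unfold aN at h
  rw [h0, abs_zero, Real.zero_rpow (by positivity)] at h
  linarith

lemma moz_nF {m q : ℕ} [NeZero q] {D : Set (V m)} {ι : Type} [DecidableEq ι]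
    (F : ι → Mat m → RM m q → ℂ) (hF : Orthn D F) (i : ι) : nF D (F i) = 1 := by
  have h1 := hF.2 i i
  rw [if_pos rfl] at h1
  have h2 : ∀ x : RM m q, ∫ z in D, F i (mt z) x * (starRingEnd ℂ) (F i (mt z) x) ∂(hm m) =
      ((∫ z in D, ‖F i (mt z) x‖ ^ 2 ∂(hm m) : ℝ) : ℂ) := by
    intro x
    rw [← integral_complex_ofReal]
    congr 1
    funext z
    rw [Complex.mul_conj, Complex.normSq_eq_norm_sq]
  rw [Finset.sum_congr rfl (fun x _ => h2 x), ← Complex.ofReal_sum] at h1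
  exact_mod_cast h1

lemma moz_nz {m q : ℕ} [NeZero q] (hm1 : 1 ≤ m) {D : Set (V m)} (hD : DomZ m D)
    (F : Mat m → RM m q → ℂ) (hF : nF D F ≠ 0) : NZ F := by
  by_contra hn
  apply hF
  have hz : ∀ g x, g.det ≠ 0 → F g x = 0 := by
    intro g x hg
    by_contra h
    exact hn ⟨g, x, hg, h⟩
  unfold nF
  refine Finset.sum_eq_zero (fun x _ => ?_)
  rw [← integral_zero (V m) ℝ (μ := (hm m).restrict D)]
  refine setIntegral_congr_fun hD.meas (fun z hz' => ?_)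
  have := hz (mt z) x (moz_det hm1 (hD.shell z hz').1)
  simp [this]

lemma moz_psz_one {m : ℕ} (t : ℝ) (mu : Fin m → ℂ) : 1 ≤ psz t mu := by
  unfold psz
  have h1 := abs_nonneg t
  have h2 : 0 ≤ ∑ j, ‖mu j‖ := Finset.sum_nonneg (fun j _ => norm_nonneg _)
  linarith

/-- powers of logarithms -/
lemma moz_log (e : ℝ) (he : 0 < e) (K : ℕ) : ∃ C : ℝ, 0 < C ∧ ∀ x : ℝ, 1 ≤ x →
    (1 + Real.log x) ^ K ≤ C * x ^ e := by
  have hK : (0 : ℝ) < (K : ℝ) + 1 := by positivity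
  have ha : 0 < e / (K + 1) := by positivity
  refine ⟨(1 + (e / (K + 1))⁻¹) ^ K, by positivity, ?_⟩
  intro x hx
  have hx0 : 0 ≤ x := by linarith
  have h1 : Real.log x ≤ x ^ (e / (K + 1)) / (e / (K + 1)) := Real.log_le_rpow_div hx0 ha
  have h2 : 1 ≤ x ^ (e / (K + 1)) := Real.one_le_rpow hx ha.le
  have h3 : 1 + Real.log x ≤ (1 + (e / (K + 1))⁻¹) * x ^ (e / (K + 1)) := by
    rw [div_eq_mul_inv] at h1
    nlinarith
  have h4 : 0 ≤ 1 + Real.log x := by linarith [Real.log_nonneg hx]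
  calc (1 + Real.log x) ^ K ≤ ((1 + (e / (K + 1))⁻¹) * x ^ (e / (K + 1))) ^ K :=
        pow_le_pow_left₀ h4 h3 K
    _ = (1 + (e / (K + 1))⁻¹) ^ K * (x ^ (e / (K + 1))) ^ K := mul_pow _ _ _
    _ ≤ (1 + (e / (K + 1))⁻¹) ^ K * x ^ e := by
        refine mul_le_mul_of_nonneg_left ?_ (by positivity)
        rw [← Real.rpow_natCast, ← Real.rpow_mul hx0]
        refine Real.rpow_le_rpow_of_exponent_le hx ?_
        rw [div_mul_eq_mul_div, div_le_iff₀ hK]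
        nlinarith

theorem pf_MOZ (B : ℕ → ℝ) : T_PRF → T_BMP → T_LMZ → T_GLZ → T_SMZ → T_SPF → T_HLD → T_D4Z →
    T_PHX B → T_MOZ B := by
  rintro ⟨χ, hχ⟩ hBMP hLMZ hGLZ hSMZ hSPF hHLD hD4Z hPHX
  intro m hm1 ε hε
  obtain ⟨e1, he1, he1a, he1b⟩ : ∃ e1 : ℝ, 0 < e1 ∧ e1 ≤ 1 ∧ 8 * e1 ≤ ε :=
    ⟨min 1 (ε / 8), lt_min one_pos (by positivity), min_le_left _ _, by
      have := min_le_right 1 (ε / 8)
      linarith⟩
  obtain ⟨c4, C4, A4, K4, hc4, hC4, hD4⟩ := hD4Z m χ hm1 hχ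
  obtain ⟨CH, hCH, hH⟩ := hHLD m hm1 e1 K4 he1
  obtain ⟨K, CS, hK, hCS, hS⟩ := hSPF m hm1 e1 (m + 1) he1 (by positivity)
  obtain ⟨CP, cP, AP, hCP, hcP, hP⟩ := hPHX m hm1 e1 K he1 hK
  obtain ⟨C5, hC5, hlog⟩ := moz_log e1 he1 K4
  obtain ⟨c, hc, hcc4, hccP⟩ : ∃ c : ℝ, 0 < c ∧ c ≤ c4 ∧ c ≤ cP :=
    ⟨min c4 cP, lt_min hc4 hcP, min_le_left _ _, min_le_right _ _⟩
  obtain ⟨A1, hA1⟩ : ∃ A1 : ℕ, A1 = 4 * AP + 4 * m ^ 2 + A4 + 1 := ⟨_, rfl⟩
  obtain ⟨C6, hC6⟩ : ∃ C6 : ℝ, C6 = (CS * CP * cP⁻¹) ^ 4 * (CH * (C4 * C5)) := ⟨_, rfl⟩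
  have hC6pos : 0 < C6 := by rw [hC6]; positivity
  obtain ⟨KK, hKK⟩ : ∃ KK : ℝ, KK = 2 / min 1 c := ⟨_, rfl⟩
  have hmin : 0 < min 1 c := lt_min one_pos hc
  have hKpos : 0 < KK := by rw [hKK]; positivity
  set B' : ℝ := C6 * KK ^ A1 * 2 ^ A1 with hB
  have hBpos : 0 < B' := by positivity
  set S2 : ℝ := ∑' j : ℕ, 1 / (j : ℝ) ^ 2 with hS2
  have hsum : Summable (fun j : ℕ => 1 / (j : ℝ) ^ 2) :=
    Real.summable_one_div_nat_pow.2 (by norm_num)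
  have hS2nn : 0 ≤ S2 := tsum_nonneg (fun j => by positivity)
  refine ⟨B' * S2 + 1, ((A1 : ℝ) + 2) / 4, by positivity, by positivity, ?_⟩
  intro q _ T D hSys ι _ _ F lam mu hF hmu hOr
  have hq2 := hSys.two_le
  have hq1 : 1 ≤ q := by omega
  have hq0 : (0 : ℝ) < q := by positivity
  have hq1' : (1 : ℝ) ≤ q := by exact_mod_cast hq1
  have hn1 : ∀ i, nF D (F i) = 1 := fun i => moz_nF F hOr i
  have hn0 : ∀ i, nF D (F i) ≠ 0 := fun i => by rw [hn1 i]; exact one_ne_zero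
  have hnz : ∀ i, NZ (F i) := fun i => moz_nz hm1 hSys.dom (F i) (hn0 i)
  -- the bump functions are smooth test functions
  have hbump : ∀ δ : ℝ, 0 < δ → δ ≤ 1 / 2 → TstS m (bump m χ δ) := by
    intro δ h0 h1
    obtain ⟨h, -⟩ := hBMP m χ hm1 hχ
    obtain ⟨ht, hs, hcs, -, -⟩ := h δ h0 h1
    exact { toTst := ht, smooth := hs, comp := hcs }
  have hL0 : ∀ i, ∃ L : ℂ → ℂ, IsL m q (lam i) L ∧ ∀ Φ : Mat m → ℂ, TstS m Φ →
      ∀ s : ℂ, Lm q Φ (mu i) (lam i) s = L s * Zf Φ (mu i) s := by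
    intro i
    obtain ⟨CL, -, hCL⟩ := hLMZ m q T D hSys (F i) (lam i) (mu i) (hF i).toEigZ (hnz i)
    obtain ⟨L, hL, hL'⟩ := hGLZ m q (lam i) (mu i) hm1 (hF i).tr0 ⟨CL, hCL⟩ χ hχ (by
      intro δ h0 h1 N
      obtain ⟨C, -, h⟩ := hSMZ m q T D hSys (F i) (lam i) (mu i) (hF i) (hn0 i)
        (bump m χ δ) (hbump δ h0 h1) N
      exact ⟨C, h⟩)
    refine ⟨L, hL, ?_⟩
    intro Φ hΦ s
    refine hL' Φ hΦ.toTst ?_ s
    intro N
    obtain ⟨C, -, h⟩ := hSMZ m q T D hSys (F i) (lam i) (mu i) (hF i) (hn0 i) Φ hΦ N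
    exact ⟨C, h⟩
  choose L hLL hLm using hL0
  refine ⟨L, hLL, ?_⟩
  intro t
  set Q : ℝ := (q : ℝ) ^ ((m : ℝ) ^ 2 + ε) with hQ
  have hQpos : 0 < Q := Real.rpow_pos_of_pos hq0 _
  set P : ι → ℝ := fun i => psz (t i) (mu i) with hP'
  have hP1 : ∀ i, 1 ≤ P i := fun i => moz_psz_one _ _
  set jf : ι → ℕ := fun i => ⌊P i⌋₊ with hjf
  have hjf1 : ∀ i, 1 ≤ jf i := fun i => Nat.le_floor (by exact_mod_cast hP1 i)
  set a : ι → ℝ := fun i => (‖L i (1 / 2 + t i * Complex.I)‖ * P i ^ (-(((A1 : ℝ) + 2) / 4))) ^ 4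
    with ha
  -- one level
  have level : ∀ (j : ℕ) (δ : ℝ), 0 < δ → δ ≤ 1 / 2 → δ * ((j : ℝ) + 1) ≤ c →
      ∑ i : {i : ι // jf i = j}, ‖L i.1 (1 / 2 + t i.1 * Complex.I)‖ ^ 4 ≤
        C6 * δ⁻¹ ^ A1 * Q := by
    intro j δ hδ0 hδ1 hδc
    have hδinv1 : 1 ≤ δ⁻¹ := by
      rw [one_le_inv₀ hδ0]
      linarith
    have hPi : ∀ i : {i : ι // jf i = j}, δ * P i.1 ≤ c := by
      intro i
      have h0 : (j : ℝ) = ((jf i.1 : ℕ) : ℝ) := by
        have := i.2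
        exact_mod_cast this.symm
      have h1 : P i.1 < (j : ℝ) + 1 := by
        rw [h0]
        exact Nat.lt_floor_add_one _
      exact (mul_le_mul_of_nonneg_left h1.le hδ0.le).trans hδc
    have hmui : ∀ i : {i : ι // jf i = j}, δ * (1 + ∑ k, ‖mu i.1 k‖) ≤ c4 := by
      intro i
      refine le_trans ?_ ((hPi i).trans hcc4)
      refine mul_le_mul_of_nonneg_left ?_ hδ0.le
      show 1 + ∑ k, ‖mu i.1 k‖ ≤ 1 + |t i.1| + ∑ k, ‖mu i.1 k‖
      linarith [abs_nonneg (t i.1)]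
    have hOr' : Orthn D (fun i : {i : ι // jf i = j} => F i.1) := by
      refine ⟨fun i k x => hOr.1 i.1 k.1 x, fun i k => ?_⟩
      have := hOr.2 i.1 k.1
      rw [this]
      by_cases h : i = k
      · subst h; simp
      · have h' : i.1 ≠ k.1 := fun h' => h (Subtype.ext h')
        simp [h, h']
    have hd4 := hD4 q T D hSys {i : ι // jf i = j} (fun i => F i.1) (fun i => lam i.1)
      (fun i => mu i.1) (fun i => hF i.1) hOr' δ hδ0 hδ1 hmui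
    obtain ⟨BB, hBB⟩ : ∃ BB : ℝ, BB = C4 * δ⁻¹ ^ A4 * (q : ℝ) ^ (m ^ 2) *
      (1 + Real.log ((q : ℝ) * δ⁻¹)) ^ K4 := ⟨_, rfl⟩
    have hqd : 1 ≤ (q : ℝ) * δ⁻¹ := by nlinarith
    have hlogqd : 0 ≤ Real.log ((q : ℝ) * δ⁻¹) := Real.log_nonneg hqd
    have hBB0 : 0 ≤ BB := by rw [hBB]; positivity
    have hhyp : ∀ y : ℝ, 1 ≤ y → ∑ i : {i : ι // jf i = j}, ‖DF m q (lam i.1) y‖ ^ 4 ≤
        BB * (1 + Real.log y) ^ K4 * y ^ (2 * m) * (1 + y ^ 2 / (q : ℝ) ^ m) ^ m := by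
      intro y hy
      rw [hBB]
      exact hd4 y hy
    have hh := hH q {i : ι // jf i = j} (fun i => lam i.1) BB hq1 hBB0 hhyp
    -- one form
    obtain ⟨W, hW⟩ : ∃ W : ℝ, W = CS * (CP * δ⁻¹ ^ AP) * (q : ℝ) ^ e1 * (cP⁻¹ * δ⁻¹ ^ (m ^ 2)) :=
      ⟨_, rfl⟩
    have hW0 : 0 ≤ W := by rw [hW]; positivity
    have hone : ∀ i : {i : ι // jf i = j},
        ENNReal.ofReal ‖L i.1 (1 / 2 + t i.1 * Complex.I)‖ ≤ ENNReal.ofReal W *
          ∫⁻ y in Set.Ioi (1 : ℝ), ENNReal.ofReal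
            (‖DF m q (lam i.1) y‖ * y ^ (-((m : ℝ) / 2) - 1) * wJ m q (m + 1) y) := by
      intro i
      obtain ⟨Φ, hΦ, hB1, hB2, hZ⟩ := hP (mu i.1) (t i.1) δ (hF i.1).tr0 (hmu i.1) hδ0 hδ1
        ((hPi i).trans hccP)
      have h1 := hS q T D hSys (F i.1) (lam i.1) (mu i.1) (hF i.1) (hn0 i.1) Φ _ hΦ hB1 hB2
        (t i.1)
      have h2 := hLm i.1 Φ hΦ (1 / 2 + t i.1 * Complex.I)
      have hδm : 0 < cP * δ ^ (m ^ 2) := by positivity
      have h3 : ‖L i.1 (1 / 2 + t i.1 * Complex.I)‖ ≤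
          ‖Lm q Φ (mu i.1) (lam i.1) (1 / 2 + t i.1 * Complex.I)‖ * (cP⁻¹ * δ⁻¹ ^ (m ^ 2)) := by
        rw [h2, norm_mul]
        calc ‖L i.1 (1 / 2 + t i.1 * Complex.I)‖ = ‖L i.1 (1 / 2 + t i.1 * Complex.I)‖ *
            (cP * δ ^ (m ^ 2)) * (cP⁻¹ * (δ⁻¹) ^ (m ^ 2)) := by
              have e1 : δ ^ (m ^ 2) * (δ⁻¹) ^ (m ^ 2) = 1 := by
                rw [← mul_pow, mul_inv_cancel₀ hδ0.ne', one_pow]
              have e2 : cP * cP⁻¹ = 1 := mul_inv_cancel₀ hcP.ne'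
              calc ‖L i.1 (1 / 2 + t i.1 * Complex.I)‖ =
                  ‖L i.1 (1 / 2 + t i.1 * Complex.I)‖ *
                  (cP * cP⁻¹) * (δ ^ (m ^ 2) * (δ⁻¹) ^ (m ^ 2)) := by rw [e1, e2]; ring
                _ = _ := by ring
          _ ≤ _ := by
              refine mul_le_mul_of_nonneg_right ?_ (by positivity)
              exact mul_le_mul_of_nonneg_left hZ (norm_nonneg _)
      calc ENNReal.ofReal ‖L i.1 (1 / 2 + t i.1 * Complex.I)‖ ≤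
          ENNReal.ofReal (‖Lm q Φ (mu i.1) (lam i.1) (1 / 2 + t i.1 * Complex.I)‖ *
            (cP⁻¹ * δ⁻¹ ^ (m ^ 2))) := ENNReal.ofReal_le_ofReal h3
        _ = ENNReal.ofReal ‖Lm q Φ (mu i.1) (lam i.1) (1 / 2 + t i.1 * Complex.I)‖ *
            ENNReal.ofReal (cP⁻¹ * δ⁻¹ ^ (m ^ 2)) := ENNReal.ofReal_mul (norm_nonneg _)
        _ ≤ (ENNReal.ofReal (CS * (CP * δ⁻¹ ^ AP) * (q : ℝ) ^ e1) *
            ∫⁻ y in Set.Ioi (1 : ℝ), ENNReal.ofReal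
            (‖DF m q (lam i.1) y‖ * y ^ (-((m : ℝ) / 2) - 1) * wJ m q (m + 1) y)) *
            ENNReal.ofReal (cP⁻¹ * δ⁻¹ ^ (m ^ 2)) := by gcongr
        _ = _ := by
            rw [hW, ENNReal.ofReal_mul (by positivity :
              (0 : ℝ) ≤ CS * (CP * δ⁻¹ ^ AP) * (q : ℝ) ^ e1)]
            ring
    have hfin : ENNReal.ofReal (∑ i : {i : ι // jf i = j},
        ‖L i.1 (1 / 2 + t i.1 * Complex.I)‖ ^ 4) ≤
        ENNReal.ofReal (W ^ 4 * (CH * BB * (q : ℝ) ^ e1)) := by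
      rw [ENNReal.ofReal_sum_of_nonneg (fun i _ => by positivity)]
      calc ∑ i : {i : ι // jf i = j}, ENNReal.ofReal
            (‖L i.1 (1 / 2 + t i.1 * Complex.I)‖ ^ 4) ≤
          ∑ i : {i : ι // jf i = j}, (ENNReal.ofReal W) ^ 4 *
            (∫⁻ y in Set.Ioi (1 : ℝ), ENNReal.ofReal
            (‖DF m q (lam i.1) y‖ * y ^ (-((m : ℝ) / 2) - 1) * wJ m q (m + 1) y)) ^ 4 := by
              refine Finset.sum_le_sum (fun i _ => ?_)
              rw [ENNReal.ofReal_pow (norm_nonneg _), ← mul_pow]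
              exact pow_le_pow_left' (hone i) 4
        _ = (ENNReal.ofReal W) ^ 4 * ∑ i : {i : ι // jf i = j},
            (∫⁻ y in Set.Ioi (1 : ℝ), ENNReal.ofReal
            (‖DF m q (lam i.1) y‖ * y ^ (-((m : ℝ) / 2) - 1) * wJ m q (m + 1) y)) ^ 4 := by
              rw [Finset.mul_sum]
        _ ≤ (ENNReal.ofReal W) ^ 4 * ENNReal.ofReal (CH * BB * (q : ℝ) ^ e1) := by
              gcongr
        _ = _ := by
              rw [← ENNReal.ofReal_pow hW0, ← ENNReal.ofReal_mul (by positivity)]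
    have hfin' := (ENNReal.ofReal_le_ofReal_iff (by positivity)).1 hfin
    refine hfin'.trans ?_
    -- the numbers
    have hl := hlog ((q : ℝ) * δ⁻¹) hqd
    have hl2 : ((q : ℝ) * δ⁻¹) ^ e1 ≤ (q : ℝ) ^ e1 * δ⁻¹ := by
      rw [Real.mul_rpow hq0.le (by positivity)]
      refine mul_le_mul_of_nonneg_left ?_ (by positivity)
      calc δ⁻¹ ^ e1 ≤ δ⁻¹ ^ (1 : ℝ) := Real.rpow_le_rpow_of_exponent_le hδinv1 he1a
        _ = δ⁻¹ := Real.rpow_one _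
    have hBBle : BB ≤ C4 * δ⁻¹ ^ A4 * (q : ℝ) ^ (m ^ 2) * (C5 * ((q : ℝ) ^ e1 * δ⁻¹)) := by
      rw [hBB]
      refine mul_le_mul_of_nonneg_left ?_ (by positivity)
      exact hl.trans (mul_le_mul_of_nonneg_left hl2 hC5.le)
    calc W ^ 4 * (CH * BB * (q : ℝ) ^ e1) ≤ W ^ 4 * (CH * (C4 * δ⁻¹ ^ A4 * (q : ℝ) ^ (m ^ 2) *
          (C5 * ((q : ℝ) ^ e1 * δ⁻¹))) * (q : ℝ) ^ e1) := by
            gcongr
      _ = C6 * δ⁻¹ ^ A1 * ((q : ℝ) ^ (m ^ 2) * ((q : ℝ) ^ e1) ^ 6) := by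
            rw [hW, hC6, hA1, pow_add, pow_add, pow_add, pow_one]
            rw [mul_comm 4 AP, mul_comm 4 (m ^ 2), pow_mul, pow_mul]
            ring
      _ ≤ C6 * δ⁻¹ ^ A1 * Q := by
            refine mul_le_mul_of_nonneg_left ?_ (by positivity)
            rw [hQ, ← Real.rpow_natCast (q : ℝ) (m ^ 2), ← Real.rpow_natCast ((q : ℝ) ^ e1) 6,
              ← Real.rpow_mul hq0.le, ← Real.rpow_add hq0]
            refine Real.rpow_le_rpow_of_exponent_le hq1' ?_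
            push_cast
            nlinarith
  have key : ∀ j : ℕ, 1 ≤ j → ∑ i ∈ Finset.univ.filter (fun i => jf i = j), a i ≤
      B' * (1 / (j : ℝ) ^ 2) * Q := by
    intro j hj
    have hj0 : (0 : ℝ) < j := by exact_mod_cast hj
    set δ : ℝ := min (1 / 2) (c / (2 * ((j : ℝ) + 1))) with hδ
    have hδ0 : 0 < δ := lt_min (by norm_num) (by positivity)
    have hδ1 : δ ≤ 1 / 2 := min_le_left _ _
    have hδinv : δ⁻¹ ≤ KK * ((j : ℝ) + 1) := by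
      rw [inv_le_comm₀ hδ0 (by positivity), hKK, hδ, le_min_iff]
      have e1 : (2 / min 1 c * ((j : ℝ) + 1))⁻¹ = min 1 c / (2 * ((j : ℝ) + 1)) := by
        field_simp
      rw [e1]
      constructor
      · rw [div_le_div_iff₀ (by positivity) (by norm_num)]
        have : min 1 c ≤ 1 := min_le_left _ _
        nlinarith
      · exact div_le_div_of_nonneg_right (min_le_right _ _) (by positivity)
    have hδc : δ * ((j : ℝ) + 1) ≤ c := by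
      calc δ * ((j : ℝ) + 1) ≤ (c / (2 * ((j : ℝ) + 1))) * ((j : ℝ) + 1) :=
            mul_le_mul_of_nonneg_right (min_le_right _ _) (by positivity)
        _ = c / 2 := by field_simp
        _ ≤ c := by linarith
    have hLv := level j δ hδ0 hδ1 hδc
    have hai : ∀ i ∈ Finset.univ.filter (fun i => jf i = j), a i ≤
        ‖L i (1 / 2 + t i * Complex.I)‖ ^ 4 * ((j : ℝ) ^ (A1 + 2))⁻¹ := by
      intro i hi
      have hji : jf i = j := (Finset.mem_filter.1 hi).2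
      have hPj : (j : ℝ) ≤ P i := by
        rw [← hji]
        exact Nat.floor_le (by linarith [hP1 i])
      have hPw : P i ^ (-(((A1 : ℝ) + 2) / 4)) ≤ (j : ℝ) ^ (-(((A1 : ℝ) + 2) / 4)) :=
        Real.rpow_le_rpow_of_nonpos hj0 hPj (by
          have : (0 : ℝ) ≤ A1 := Nat.cast_nonneg _
          linarith)
      have hPw4 : ((j : ℝ) ^ (-(((A1 : ℝ) + 2) / 4))) ^ 4 = ((j : ℝ) ^ (A1 + 2))⁻¹ := by
        rw [← Real.rpow_natCast, ← Real.rpow_mul hj0.le, ← Real.rpow_natCast,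
          ← Real.rpow_neg hj0.le]
        congr 1
        push_cast
        ring
      have hPnn : 0 ≤ P i ^ (-(((A1 : ℝ) + 2) / 4)) :=
        Real.rpow_nonneg (by linarith [hP1 i]) _
      calc a i = ‖L i (1 / 2 + t i * Complex.I)‖ ^ 4 * (P i ^ (-(((A1 : ℝ) + 2) / 4))) ^ 4 := by
            rw [ha]; ring
        _ ≤ ‖L i (1 / 2 + t i * Complex.I)‖ ^ 4 * ((j : ℝ) ^ (-(((A1 : ℝ) + 2) / 4))) ^ 4 := by
            refine mul_le_mul_of_nonneg_left (pow_le_pow_left₀ hPnn hPw 4) (by positivity)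
        _ = _ := by rw [hPw4]
    have hJ : ((j : ℝ) + 1) ^ A1 * ((j : ℝ) ^ (A1 + 2))⁻¹ ≤ 2 ^ A1 * (1 / (j : ℝ) ^ 2) := by
      have e1 : ((j : ℝ) + 1) ^ A1 ≤ (2 * (j : ℝ)) ^ A1 := by
        refine pow_le_pow_left₀ (by positivity) ?_ _
        have : (1 : ℝ) ≤ j := by exact_mod_cast hj
        linarith
      calc ((j : ℝ) + 1) ^ A1 * ((j : ℝ) ^ (A1 + 2))⁻¹ ≤
          (2 * (j : ℝ)) ^ A1 * ((j : ℝ) ^ (A1 + 2))⁻¹ :=
            mul_le_mul_of_nonneg_right e1 (by positivity)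
        _ = 2 ^ A1 * (1 / (j : ℝ) ^ 2) := by
            rw [mul_pow]
            field_simp
            ring
    have hsub : ∑ i ∈ Finset.univ.filter (fun i => jf i = j),
        ‖L i (1 / 2 + t i * Complex.I)‖ ^ 4 =
        ∑ i : {i : ι // jf i = j}, ‖L i.1 (1 / 2 + t i.1 * Complex.I)‖ ^ 4 := by
      refine Finset.sum_subtype _ ?_ (fun i => ‖L i (1 / 2 + t i * Complex.I)‖ ^ 4)
      intro i
      simp
    calc ∑ i ∈ Finset.univ.filter (fun i => jf i = j), a i ≤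
        ∑ i ∈ Finset.univ.filter (fun i => jf i = j),
          ‖L i (1 / 2 + t i * Complex.I)‖ ^ 4 * ((j : ℝ) ^ (A1 + 2))⁻¹ :=
            Finset.sum_le_sum hai
      _ = (∑ i : {i : ι // jf i = j}, ‖L i.1 (1 / 2 + t i.1 * Complex.I)‖ ^ 4) *
          ((j : ℝ) ^ (A1 + 2))⁻¹ := by
            rw [← hsub, Finset.sum_mul]
      _ ≤ (C6 * δ⁻¹ ^ A1 * Q) * ((j : ℝ) ^ (A1 + 2))⁻¹ :=
            mul_le_mul_of_nonneg_right hLv (by positivity)
      _ = C6 * (δ⁻¹) ^ A1 * ((j : ℝ) ^ (A1 + 2))⁻¹ * Q := by ring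
      _ ≤ C6 * (KK * ((j : ℝ) + 1)) ^ A1 * ((j : ℝ) ^ (A1 + 2))⁻¹ * Q := by
            have e2 : (δ⁻¹) ^ A1 ≤ (KK * ((j : ℝ) + 1)) ^ A1 :=
              pow_le_pow_left₀ (by positivity) hδinv _
            refine mul_le_mul_of_nonneg_right ?_ hQpos.le
            refine mul_le_mul_of_nonneg_right ?_ (by positivity)
            exact mul_le_mul_of_nonneg_left e2 (by positivity)
      _ = C6 * KK ^ A1 * (((j : ℝ) + 1) ^ A1 * ((j : ℝ) ^ (A1 + 2))⁻¹) * Q := by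
            rw [mul_pow]
            ring
      _ ≤ C6 * KK ^ A1 * (2 ^ A1 * (1 / (j : ℝ) ^ 2)) * Q := by
            refine mul_le_mul_of_nonneg_right ?_ hQpos.le
            exact mul_le_mul_of_nonneg_left hJ (by positivity)
      _ = B' * (1 / (j : ℝ) ^ 2) * Q := by
            rw [hB]
            ring
  have hfib : ∑ i, a i = ∑ j ∈ Finset.univ.image jf,
      ∑ i ∈ Finset.univ.filter (fun i => jf i = j), a i :=
    (Finset.sum_fiberwise_of_maps_to (fun i _ => Finset.mem_image_of_mem jf (Finset.mem_univ i))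
      a).symm
  calc ∑ i, a i = ∑ j ∈ Finset.univ.image jf,
      ∑ i ∈ Finset.univ.filter (fun i => jf i = j), a i := hfib
    _ ≤ ∑ j ∈ Finset.univ.image jf, B' * (1 / (j : ℝ) ^ 2) * Q := by
        refine Finset.sum_le_sum (fun j hj => key j ?_)
        obtain ⟨i, _, rfl⟩ := Finset.mem_image.1 hj
        exact hjf1 i
    _ = B' * (∑ j ∈ Finset.univ.image jf, 1 / (j : ℝ) ^ 2) * Q := by
        rw [Finset.mul_sum, Finset.sum_mul]
    _ ≤ B' * S2 * Q := by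
        refine mul_le_mul_of_nonneg_right ?_ hQpos.le
        refine mul_le_mul_of_nonneg_left ?_ hBpos.le
        exact hsum.sum_le_tsum _ (fun j _ => by positivity)
    _ ≤ (B' * S2 + 1) * Q := by
        refine mul_le_mul_of_nonneg_right ?_ hQpos.le
        linarith

end Pool.Agent.H34.GZ
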