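import Pool.Agent.H34.GZ.All
import Pool.Agent.H34.GZ.MOZ
import Pool.Agent.H55.GZ.PHX
import Pool.Agent.H34.GM.PRF

/-!
The final facts of the board gz (page H34_GZ.md).
-/

namespace Pool.Agent.H34.GZ

open Pool.Agent.H34.GM

theorem f_PHX : ∀ B : ℕ → ℝ, T_PHX B :=
  Pool.Agent.H55.GZ.pf_PHX Pool.Agent.H34.GM.pf_PRF g_ZLB a_BEU a_FTE a_FTG a_EUL a_EKD a_ZEK a_PKB
    a_THE a_TCK a_THB

theorem f_MOZ : T_MOZ (fun m => ((m : ℝ) - 1) / 2) :=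
  pf_MOZ _ Pool.Agent.H34.GM.pf_PRF g_BMP a_LMZ a_GLZ a_SMZ a_SPF a_HLD a_D4Z (f_PHX _)

theorem f_EXT : T_EXT := a_EXT

theorem f_EXD : T_EXD := a_EXD

theorem f_APB : T_APB := a_APB

end Pool.Agent.H34.GZ
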